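import Pool.Agent.helper13.UN.Spec
import Pool.Agent.helper9.Tors.Divs

/-! # Project UN, row IDN: number of ideals of norm at most `z`, uniformly in the number field -/

set_option autoImplicit false

open NumberField Complex

namespace Pool.Agent.UN

theorem IDN (hIDM : IDM_stmt) : IDN_stmt := by
  intro n hn ε hε
  have hn0 : (0 : ℝ) < n := by exact_mod_cast hn
  obtain ⟨C0, hC0, hd⟩ := Pool.Agent.helper9.Tors.divisor_bound (ε / n) (by positivity)
  refine ⟨max 1 (C0 ^ n), le_max_left _ _, ?_⟩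
  intro K _ _ hK z hz
  set M : ℕ := ⌊z⌋₊ with hM
  have hMz : (M : ℝ) ≤ z := Nat.floor_le hz.le
  have hsub : {I : Ideal (𝓞 K) | I ≠ ⊥ ∧ Nm I ≤ z} ⊆
      ⋃ m ∈ Finset.Icc 1 M, {I : Ideal (𝓞 K) | Ideal.absNorm I = m} := by
    intro I hI
    rw [Set.mem_ofPred_eq] at hI
    rw [Set.mem_iUnion₂]
    refine ⟨Ideal.absNorm I, ?_, rfl⟩
    rw [Finset.mem_Icc]
    constructor
    · rw [Nat.one_le_iff_ne_zero]
      intro h0
      exact hI.1 (Ideal.absNorm_eq_zero_iff.1 h0)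
    · exact Nat.le_floor hI.2
  have hfin : (⋃ m ∈ Finset.Icc 1 M, {I : Ideal (𝓞 K) | Ideal.absNorm I = m}).Finite :=
    Set.Finite.biUnion (Finset.finite_toSet _) (fun m _ => Ideal.finite_setOfPred_absNorm_eq m)
  have h1 : ({I : Ideal (𝓞 K) | I ≠ ⊥ ∧ Nm I ≤ z}.ncard : ℝ) ≤
      ∑ m ∈ Finset.Icc 1 M, ({I : Ideal (𝓞 K) | Ideal.absNorm I = m}.ncard : ℝ) := by
    have h2 := (Set.ncard_le_ncard hsub hfin).trans
      (Finset.set_ncard_biUnion_le (Finset.Icc 1 M) (fun m => {I : Ideal (𝓞 K) | Ideal.absNorm I = m}))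
    exact_mod_cast h2
  have h3 : ∀ m ∈ Finset.Icc 1 M, ({I : Ideal (𝓞 K) | Ideal.absNorm I = m}.ncard : ℝ) ≤
      C0 ^ n * z ^ ε := by
    intro m hm
    rw [Finset.mem_Icc] at hm
    have hm1 : (1 : ℝ) ≤ m := by exact_mod_cast hm.1
    have hmz : (m : ℝ) ≤ z := le_trans (by exact_mod_cast hm.2) hMz
    have h4 := hIDM K m hm.1
    rw [hK] at h4
    refine h4.trans ?_
    have h5 := hd m (by omega)
    calc ((m.divisors.card : ℝ)) ^ n ≤ (C0 * (m : ℝ) ^ (ε / n)) ^ n :=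
          pow_le_pow_left₀ (Nat.cast_nonneg _) h5 n
      _ = C0 ^ n * (m : ℝ) ^ ε := by
          rw [mul_pow, ← Real.rpow_natCast ((m : ℝ) ^ (ε / n)) n, ← Real.rpow_mul (by linarith),
            div_mul_cancel₀ _ hn0.ne']
      _ ≤ C0 ^ n * z ^ ε :=
          mul_le_mul_of_nonneg_left (Real.rpow_le_rpow (by linarith) hmz hε.le) (by positivity)
  refine h1.trans ((Finset.sum_le_sum h3).trans ?_)
  rw [Finset.sum_const, Nat.card_Icc, nsmul_eq_mul]
  have h6 : (((M + 1 - 1 : ℕ)) : ℝ) ≤ z := by simpa using hMz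
  have h7 : 0 ≤ z ^ ε := (Real.rpow_pos_of_pos hz _).le
  calc (((M + 1 - 1 : ℕ)) : ℝ) * (C0 ^ n * z ^ ε) ≤ z * (C0 ^ n * z ^ ε) :=
        mul_le_mul_of_nonneg_right h6 (by positivity)
    _ = C0 ^ n * z ^ (1 + ε) := by
        rw [Real.rpow_add hz, Real.rpow_one]; ring
    _ ≤ max 1 (C0 ^ n) * z ^ (1 + ε) :=
        mul_le_mul_of_nonneg_right (le_max_right _ _) (Real.rpow_pos_of_pos hz _).le

end Pool.Agent.UN
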